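import Pool.Agent.TH687.PD.ModSix

/-!
# New solutions with modulus 6

The definitions `PD687.cls`, `PD687.A`, `PD687.B0` are in `Pool.Agent.TH687.PD.Basic`, and
`PD687.gaps` in `Pool.Agent.TH687.PD.ModFour`.
-/

namespace Pool.Agent.Results.MP_f65d86_nt.NewSolutionsModSix

open PD687

theorem result :
    (∀ n : ℕ, 1 ≤ n → A {2, 4, 5} 6 n = B0 (gaps [7, 6, 7, 6, 5, 8]) 6 {1, 3} n) ∧
    (∀ n : ℕ, 1 ≤ n → A {1, 3, 5} 6 n = B0 (gaps [6, 7, 6, 7, 5, 8]) 6 {2} n) ∧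
    (∀ n : ℕ, 1 ≤ n → A {1, 3, 5} 6 n = B0 (gaps [6, 7, 5, 8, 6, 7]) 6 {2} n) ∧
    (∀ n : ℕ, 1 ≤ n → A {1, 3, 5} 6 n = B0 (gaps [6, 7, 5, 8, 5, 8]) 6 {2} n) :=
  ⟨fun n _ => modSix_245 n, fun n _ => (modSix_135 n).1, fun n _ => (modSix_135 n).2.1,
    fun n _ => (modSix_135 n).2.2⟩

end Pool.Agent.Results.MP_f65d86_nt.NewSolutionsModSix
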