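import Pool.Agent.TH687.PD.Classify

/-!
# A switching principle for the solutions

If on a set `I` of residue classes modulo `M` the gaps are `g` on `I` and `g+1` on `I+1`, then
(under the stated hypotheses) the gaps may be replaced by `g-1` on `I` and `g+2` on `I+1` without
changing any of the numbers `B_0(n)`.

The definitions `PD687.cls`, `PD687.A`, `PD687.B0` are in `Pool.Agent.TH687.PD.Basic`,
`PD687.sw` and `PD687.swC` in `Pool.Agent.TH687.PD.Switch`, and `PD687.IsSolution` in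
`Pool.Agent.TH687.PD.Classify`.
-/

namespace Pool.Agent.Results.MP_f65d86_nt.SwitchTheorem

open PD687

theorem result {M g : ℕ} {b : ℕ → ℕ} {I C : Finset ℕ} (hM : 1 ≤ M) (hg : 2 ≤ g)
    (hb : ∀ j, 1 ≤ j → j ≤ M → 1 ≤ b j)
    (h1 : ∀ e, cls M e ∈ I → cls M (e + 1) ∉ I)
    (h2 : ∀ e, cls M e ∈ I ↔ cls M (e + g) ∈ I)
    (h3 : ∀ e, cls M e ∈ I → b (cls M e) = g ∧ b (cls M (e + 1)) = g + 1)
    (h4 : ∀ e, cls M (e + 1) ∉ I → cls M e ∉ I → e + 1 ∉ C → b (cls M (e + 1)) ≤ e →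
      cls M (e + 1 - b (cls M (e + 1))) ∉ I)
    (h5 : ∀ e, 1 ≤ e → cls M e ∈ I → (e ∈ C ↔ e + 1 ∈ C)) :
    (∀ n, B0 b M C n = B0 (sw M g I b) M (swC M g I C) n) ∧
    (∀ R, IsSolution R b M C ↔ IsSolution R (sw M g I b) M (swC M g I C)) := by
  have key : ∀ n, B0 b M C n = B0 (sw M g I b) M (swC M g I C) n :=
    B0_switch hM hb hg h1 h2 h3 h4 h5
  refine ⟨key, fun R => ?_⟩
  unfold IsSolution
  have hb' : ∀ j, 1 ≤ j → j ≤ M → 1 ≤ sw M g I b j := by
    intro j hj1 hj2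
    unfold sw
    split_ifs
    · omega
    · omega
    · exact hb j hj1 hj2
  have hC : (∀ c ∈ C, 1 ≤ c) ↔ ∀ c ∈ swC M g I C, 1 ≤ c := by
    constructor
    · intro h c hc
      rw [mem_swC] at hc
      rcases hc with hc | hc
      · exact h c hc
      · omega
    · intro h c hc
      exact h c (mem_swC.2 (Or.inl hc))
  constructor
  · rintro ⟨_, ha, hs⟩
    exact ⟨hb', hC.1 ha, fun n hn => by rw [hs n hn, key n]⟩
  · rintro ⟨_, ha, hs⟩
    exact ⟨hb, hC.2 ha, fun n hn => by rw [hs n hn, key n]⟩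

end Pool.Agent.Results.MP_f65d86_nt.SwitchTheorem
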