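import Pool.Agent.TH687.PD.Classify4

/-!
# All solutions for `M ≤ 4`

For the moduli `M = 1, 2, 3, 4` all triples (residue set, gaps, exceptional set) with
`A(n) = B_0(n)` for all `n ≥ 1` are determined.

The definitions `PD687.cls`, `PD687.A`, `PD687.B0` are in `Pool.Agent.TH687.PD.Basic`, and
`PD687.IsSolution` is in `Pool.Agent.TH687.PD.Classify`.
-/

namespace Pool.Agent.Results.MP_f65d86_nt.UpToFour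

open PD687

theorem result (R : Finset ℕ) (b : ℕ → ℕ) (C : Finset ℕ) :
    (IsSolution R b 1 C ↔ R.Nonempty ∧ b 1 = 1 ∧ C = ∅) ∧
    (IsSolution R b 2 C ↔
      (R.image (· % 2) = {0, 1} ∧ b 1 = 1 ∧ b 2 = 1 ∧ C = ∅) ∨
      (R.image (· % 2) = {1} ∧ b 1 = 6 ∧ b 2 = 7 ∧ C = {2})) ∧
    (IsSolution R b 3 C ↔
      (R.image (· % 3) = {0, 1, 2} ∧ b 1 = 1 ∧ b 2 = 1 ∧ b 3 = 1 ∧ C = ∅) ∨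
      (R.image (· % 3) = {1, 2} ∧
        ((b 1 = 3 ∧ b 2 = 3 ∧ b 3 = 4) ∨ (b 1 = 3 ∧ b 2 = 2 ∧ b 3 = 5)) ∧ C = ∅)) ∧
    (IsSolution R b 4 C ↔
      (R.image (· % 4) = {0, 1, 2, 3} ∧ b 1 = 1 ∧ b 2 = 1 ∧ b 3 = 1 ∧ b 4 = 1 ∧ C = ∅) ∨
      (R.image (· % 4) = {1, 3} ∧ b 1 = 6 ∧ b 2 = 7 ∧ b 3 = 6 ∧ b 4 = 7 ∧ C = {2}) ∨
      (R.image (· % 4) = {0, 1, 2} ∧ b 1 = 3 ∧ b 2 = 2 ∧ b 3 = 3 ∧ b 4 = 2 ∧ C = ∅) ∨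
      (R.image (· % 4) = {0, 1, 2} ∧ b 1 = 4 ∧ b 2 = 1 ∧ b 3 = 4 ∧ b 4 = 1 ∧ C = {3}) ∨
      (R.image (· % 4) = {0, 2, 3} ∧ b 1 = 3 ∧ b 2 = 2 ∧ b 3 = 3 ∧ b 4 = 2 ∧ C = {1}) ∨
      (R.image (· % 4) = {0, 2, 3} ∧ b 1 = 4 ∧ b 2 = 1 ∧ b 3 = 4 ∧ b 4 = 1 ∧ C = {1})) :=
  ⟨classify1 R b C, classify2 R b C, classify3 R b C, classify4 R b C⟩

end Pool.Agent.Results.MP_f65d86_nt.UpToFour
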